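import Mathlib

namespace Pool.Agent.Lib.MP_88cfb8_co

open Classical

/-- `a` is a legal removal from a pile of `n` stones in the subtraction game on
`A = {L, ..., M}` (the clause `1 ≤ a` is implied by `1 ≤ L ≤ a`). -/
def Move (L M n a : ℕ) : Prop := 1 ≤ a ∧ L ≤ a ∧ a ≤ M ∧ a ≤ n

/-- `W_A(n) = I`: the player to move wins from a pile of `n` stones. -/
def FirstWins (L M : ℕ) (n : ℕ) : Prop :=
  ∃ a, ∃ _ : Move L M n a, ¬ FirstWins L M (n - a)
termination_by n
decreasing_by
  unfold Move at *
  omega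

mutual
/-- The cash threshold `f_I`. -/
noncomputable def fI (L M : ℕ) (n : ℕ) : ℕ :=
  if n < L then 0
  else if FirstWins L M n then
    sInf {v | ∃ a, ∃ _ : Move L M n a, ¬ FirstWins L M (n - a) ∧ v = fII L M (n - a) + a}
  else
    sInf {v | ∃ a, ∃ _ : Move L M n a, fI L M (n - a) = fII L M n ∧ v = fII L M (n - a) + a}
termination_by 2 * n + 1
decreasing_by
  all_goals (unfold Move at *; omega)

/-- The cash threshold `f_II`. -/
noncomputable def fII (L M : ℕ) (n : ℕ) : ℕ :=
  if n < L then 0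
  else sSup {v | ∃ a, ∃ _ : Move L M n a, v = fI L M (n - a)}
termination_by 2 * n
decreasing_by
  all_goals (unfold Move at *; omega)
end

end Pool.Agent.Lib.MP_88cfb8_co
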