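import Pool.Agent.Lib.MP_88cfb8_co.Defs

namespace Pool.Agent.Lib.MP_88cfb8_co

open Classical

lemma divmod (p q r : ℕ) (hr : r < p) : (q * p + r) / p = q ∧ (q * p + r) % p = r := by
  have hp : 0 < p := by omega
  constructor
  · rw [Nat.add_comm, Nat.add_mul_div_right _ _ hp, Nat.div_eq_of_lt hr]; simp
  · rw [Nat.add_comm, Nat.add_mul_mod_self_right, Nat.mod_eq_of_lt hr]

lemma decomp (p n : ℕ) (hp : 0 < p) : ∃ q r, r < p ∧ n = q * p + r :=
  ⟨n / p, n % p, Nat.mod_lt _ hp, by rw [Nat.mul_comm]; exact (Nat.div_add_mod n p).symm⟩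

lemma win_iff (L M : ℕ) (hL : 1 ≤ L) (hLM : L ≤ M) (n : ℕ) :
    FirstWins L M n ↔ L ≤ n % (L + M) := by
  induction n using Nat.strong_induction_on with
  | _ n ih =>
    rw [FirstWins]
    constructor
    · rintro ⟨a, ⟨h1, h2, h3, h4⟩, hw⟩
      rw [ih (n - a) (by omega)] at hw
      obtain ⟨q, r, hr, hqr⟩ := decomp (L + M) (n - a) (by omega)
      rw [hqr, (divmod _ _ _ hr).2] at hw
      have : n = q * (L + M) + (r + a) := by omega
      rw [this, (divmod _ q (r + a) (by omega)).2]
      omega
    · intro h
      obtain ⟨q, r, hr, hqr⟩ := decomp (L + M) n (by omega)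
      rw [hqr, (divmod _ _ _ hr).2] at h
      refine ⟨min r M, ⟨by omega, by omega, by omega, by omega⟩, ?_⟩
      rw [ih (n - min r M) (by omega)]
      have : n - min r M = q * (L + M) + (r - min r M) := by omega
      rw [this, (divmod _ q (r - min r M) (by omega)).2]
      omega

/-- linear part -/
def G (L M n : ℕ) : ℕ := n + 1 - (n / (L + M) + 1) * L
/-- staircase part -/
def H (L n : ℕ) : ℕ := L * (n / (2 * L))
/-- closed form of `fI` -/
def F (L M n : ℕ) : ℕ := max (G L M n) (H L (n + L))

lemma G_eq (L M q r : ℕ) (hr : r < L + M) :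
    G L M (q * (L + M) + r) = q * L + q * M + r + 1 - (q * L + L) := by
  unfold G
  rw [(divmod _ _ _ hr).1]
  congr 1 <;> ring

lemma H_spec (L n : ℕ) (hL : 1 ≤ L) : ∃ j, H L n = L * j ∧ 2 * (L * j) ≤ n ∧ n < 2 * (L * j) + 2 * L := by
  refine ⟨n / (2 * L), rfl, ?_, ?_⟩
  · have := Nat.mul_div_le n (2 * L)
    nlinarith
  · have h1 := Nat.div_add_mod n (2 * L)
    have h2 := Nat.mod_lt n (show 0 < 2 * L by omega)
    nlinarith

lemma H_ge (L n j : ℕ) (hL : 1 ≤ L) (h : 2 * (L * j) ≤ n) : L * j ≤ H L n := by
  unfold H
  apply Nat.mul_le_mul_left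
  rw [Nat.le_div_iff_mul_le (by omega)]
  nlinarith

lemma H_le (L n j : ℕ) (hL : 1 ≤ L) (h : n < 2 * (L * j) + 2 * L) : H L n ≤ L * j := by
  unfold H
  apply Nat.mul_le_mul_left
  apply Nat.le_of_lt_succ
  rw [Nat.div_lt_iff_lt_mul (by omega)]
  nlinarith

lemma H_add (L n : ℕ) (hL : 1 ≤ L) : H L (n + 2 * L) = H L n + L := by
  unfold H
  rw [Nat.add_div_right _ (by omega)]
  ring

lemma H_mono (L : ℕ) {m n : ℕ} (h : m ≤ n) : H L m ≤ H L n := by
  unfold H
  exact Nat.mul_le_mul_left _ (Nat.div_le_div_right h)

lemma F_mono (L M q r s : ℕ) (hrs : r ≤ s) (hs : s < L + M) :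
    F L M (q * (L + M) + r) ≤ F L M (q * (L + M) + s) := by
  unfold F
  rw [G_eq L M q r (by omega), G_eq L M q s hs]
  have := H_mono L (show q * (L + M) + r + L ≤ q * (L + M) + s + L by omega)
  omega

lemma setII_finite (L M n : ℕ) :
    {v | ∃ a, ∃ _ : Move L M n a, v = fI L M (n - a)}.Finite := by
  apply Set.Finite.subset ((Set.finite_Iic M).image (fun a => fI L M (n - a)))
  rintro v ⟨a, ⟨_, _, h, _⟩, rfl⟩
  exact ⟨a, h, rfl⟩

lemma fII_ge (L M n a : ℕ) (h : Move L M n a) : fI L M (n - a) ≤ fII L M n := by
  have hn : ¬ n < L := by obtain ⟨_, _, _, _⟩ := h; omega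
  rw [fII, if_neg hn]
  exact le_csSup (setII_finite L M n).bddAbove ⟨a, h, rfl⟩

lemma fII_mem (L M n : ℕ) (hL : 1 ≤ L) (hLM : L ≤ M) (hn : L ≤ n) :
    ∃ a, Move L M n a ∧ fII L M n = fI L M (n - a) := by
  have hne : {v | ∃ a, ∃ _ : Move L M n a, v = fI L M (n - a)}.Nonempty :=
    ⟨_, L, ⟨hL, le_rfl, hLM, hn⟩, rfl⟩
  have := hne.csSup_mem (setII_finite L M n)
  rw [fII, if_neg (by omega)]
  obtain ⟨a, h, e⟩ := this
  exact ⟨a, h, e⟩

lemma fII_small (L M n : ℕ) (hn : n < L) : fII L M n = 0 := by
  rw [fII, if_pos hn]

/-- when the window lies in one period, `fII n = F (n - L)` -/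
lemma fII_window (L M N : ℕ) (hL : 1 ≤ L) (hLM : L ≤ M) (ih : ∀ m < N, fI L M m = F L M m)
    (q r : ℕ) (h1 : M ≤ r) (h2 : r < L + M + L) (hN : q * (L + M) + r ≤ N) :
    fII L M (q * (L + M) + r) = F L M (q * (L + M) + (r - L)) := by
  apply le_antisymm
  · obtain ⟨a, ⟨a1, a2, a3, a4⟩, e⟩ := fII_mem L M (q * (L + M) + r) hL hLM (by omega)
    rw [e, ih _ (by omega)]
    have : q * (L + M) + r - a = q * (L + M) + (r - a) := by omega
    rw [this]
    exact F_mono L M q _ _ (by omega) (by omega)
  · have := fII_ge L M (q * (L + M) + r) L ⟨hL, le_rfl, hLM, by omega⟩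
    rw [ih _ (by omega)] at this
    have e : q * (L + M) + r - L = q * (L + M) + (r - L) := by omega
    rwa [e] at this

lemma caseI_val (L M : ℕ) (hL : 1 ≤ L) (hLM : L ≤ M) (q r t : ℕ) (hr : r < L + M)
    (ht : t < L) (htr : t ≤ r)
    (ih : ∀ m < q * (L + M) + r, fI L M m = F L M m) :
    fII L M (q * (L + M) + t) + (r - t) =
      max (G L M (q * (L + M) + r)) (H L (q * (L + M) + t) + (r - t)) := by
  rw [G_eq L M q r hr]
  rcases Nat.eq_zero_or_pos q with rfl | hq
  · have h0 : H L (0 * (L + M) + t) = 0 := by
      have := H_le L (0 * (L + M) + t) 0 hL (by omega)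
      omega
    rw [fII_small L M _ (by omega), h0]
    omega
  · obtain ⟨k, rfl⟩ : ∃ k, q = k + 1 := ⟨q - 1, by omega⟩
    have e : (k + 1) * (L + M) + t = k * (L + M) + (L + M + t) := by ring
    have e' : (k + 1) * (L + M) = k * (L + M) + (L + M) := by ring
    have hw := fII_window L M _ hL hLM ih k (L + M + t) (by omega) (by omega) (by omega)
    rw [e, hw]
    unfold F
    rw [G_eq L M k _ (by omega)]
    have e2 : k * (L + M) + (L + M + t - L) + L = k * (L + M) + (L + M + t) := by omega
    rw [e2]
    have e3 : (k + 1) * L = k * L + L := by ring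
    have e4 : (k + 1) * M = k * M + M := by ring
    omega

theorem fI_eq (L M : ℕ) (hL : 1 ≤ L) (hLM : L ≤ M) (n : ℕ) : fI L M n = F L M n := by
  induction n using Nat.strong_induction_on with
  | _ n ih =>
    obtain ⟨q, r, hr, rfl⟩ := decomp (L + M) n (by omega)
    have hqp : q * (L + M) = q * L + q * M := by ring
    have hqLM : q * L ≤ q * M := Nat.mul_le_mul_left _ hLM
    rw [fI]
    split_ifs with hn hw
    · have hq : q = 0 := by
        by_contra hq
        have : 1 * L ≤ q * L := Nat.mul_le_mul_right _ (by omega)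
        omega
      subst hq
      unfold F
      rw [G_eq L M 0 r hr]
      have := H_le L (0 * (L + M) + r + L) 0 hL (by omega)
      omega
    · rw [win_iff L M hL hLM, (divmod _ _ _ hr).2] at hw
      obtain ⟨j, hj, hj1, hj2⟩ := H_spec L (q * (L + M) + r - L) hL
      have hHn : H L (q * (L + M) + r + L) = L * j + L := by
        rw [← hj, ← H_add L _ hL]; congr 1; omega
      have lower : ∀ t, t < L → t + L ≤ r → F L M (q * (L + M) + r) ≤
          max (G L M (q * (L + M) + r)) (H L (q * (L + M) + t) + (r - t)) := by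
        intro t ht htr
        unfold F
        rw [hHn, G_eq L M q r hr]
        rcases Nat.lt_or_ge q j with hjq | hjq
        · have : L * (q + 1) ≤ L * j := Nat.mul_le_mul_left _ hjq
          have e : L * (q + 1) = q * L + L := by ring
          omega
        · have h1 : L * j ≤ L * q := Nat.mul_le_mul_left _ hjq
          have e : L * q = q * L := by ring
          have := H_ge L (q * (L + M) + t) j hL (by omega)
          omega
      apply IsLeast.csInf_eq
      constructor
      · by_cases h2 : r < 2 * L
        · refine ⟨L, ⟨hL, le_rfl, hLM, by omega⟩, ?_, ?_⟩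
          · rw [win_iff L M hL hLM]
            have e : q * (L + M) + r - L = q * (L + M) + (r - L) := by omega
            rw [e, (divmod _ q (r - L) (by omega)).2]
            omega
          · have e : q * (L + M) + r - L = q * (L + M) + (r - L) := by omega
            have := caseI_val L M hL hLM q r (r - L) hr (by omega) (by omega) ih
            have e2 : r - (r - L) = L := by omega
            rw [e2] at this
            rw [e, this, ← e, hj]
            unfold F
            rw [hHn]
        · refine ⟨r - (L - 1), ⟨by omega, by omega, by omega, by omega⟩, ?_, ?_⟩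
          · rw [win_iff L M hL hLM]
            have e : q * (L + M) + r - (r - (L - 1)) = q * (L + M) + (L - 1) := by omega
            rw [e, (divmod _ q (L - 1) (by omega)).2]
            omega
          · have e : q * (L + M) + r - (r - (L - 1)) = q * (L + M) + (L - 1) := by omega
            have hv := caseI_val L M hL hLM q r (L - 1) hr (by omega) (by omega) ih
            have hl := lower (L - 1) (by omega) (by omega)
            rw [e, hv]
            apply le_antisymm hl
            obtain ⟨i, hi, hi1, hi2⟩ := H_spec L (q * (L + M) + (L - 1)) hL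
            have hb : L * i ≤ q * M := by
              rcases Nat.lt_or_ge q i with hiq | hiq
              · have : L * (q + 1) ≤ L * i := Nat.mul_le_mul_left _ hiq
                have e : L * (q + 1) = q * L + L := by ring
                omega
              · have h1 : L * i ≤ L * q := Nat.mul_le_mul_left _ hiq
                have e : L * q = q * L := by ring
                omega
            unfold F
            rw [hi, G_eq L M q r hr]
            omega
      · rintro v ⟨a, ⟨a1, a2, a3, a4⟩, hnw, rfl⟩
        rw [win_iff L M hL hLM] at hnw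
        have har : a ≤ r := by
          by_contra har
          obtain ⟨k, rfl⟩ : ∃ k, q = k + 1 := ⟨q - 1, by
            rcases Nat.eq_zero_or_pos q with rfl | hq
            · omega
            · omega⟩
          have e' : (k + 1) * (L + M) = k * (L + M) + (L + M) := by ring
          have e : (k + 1) * (L + M) + r - a = k * (L + M) + (L + M + r - a) := by omega
          rw [e, (divmod _ k _ (by omega)).2] at hnw
          omega
        have e : q * (L + M) + r - a = q * (L + M) + (r - a) := by omega
        rw [e, (divmod _ q _ (by omega)).2] at hnw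
        have hv := caseI_val L M hL hLM q r (r - a) hr (by omega) (by omega) ih
        have hl := lower (r - a) (by omega) (by omega)
        have e2 : r - (r - a) = a := by omega
        rw [e2] at hv hl
        rw [e, hv]
        exact hl
    · rw [win_iff L M hL hLM, (divmod _ _ _ hr).2] at hw
      obtain ⟨k, rfl⟩ : ∃ k, q = k + 1 := ⟨q - 1, by
        rcases Nat.eq_zero_or_pos q with rfl | hq
        · omega
        · omega⟩
      have e' : (k + 1) * (L + M) = k * (L + M) + (L + M) := by ring
      have hkp : k * (L + M) = k * L + k * M := by ring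
      have hkLM : k * L ≤ k * M := Nat.mul_le_mul_left _ hLM
      have e3 : (k + 1) * L = k * L + L := by ring
      have e4 : (k + 1) * M = k * M + M := by ring
      have en : (k + 1) * (L + M) + r = k * (L + M) + (L + M + r) := by omega
      have hII : fII L M ((k + 1) * (L + M) + r) = F L M (k * (L + M) + (M + r)) := by
        have := fII_window L M _ hL hLM ih k (L + M + r) (by omega) (by omega) (by omega)
        rw [en, this]; congr 2; omega
      obtain ⟨j, hj, hj1, hj2⟩ := H_spec L (k * (L + M) + (M + r)) hL
      have hHn : H L ((k + 1) * (L + M) + r + L) = L * j + L := by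
        rw [← hj, ← H_add L _ hL]; congr 1; omega
      apply IsLeast.csInf_eq
      constructor
      · refine ⟨L, ⟨hL, le_rfl, hLM, by omega⟩, ?_, ?_⟩
        · rw [hII, ih _ (by omega)]; congr 1; omega
        · have e : (k + 1) * (L + M) + r - L = k * (L + M) + (M + r) := by omega
          have hw2 := fII_window L M _ hL hLM ih k (M + r) (by omega) (by omega) (by omega)
          rw [e, hw2]
          unfold F
          rw [hHn, G_eq L M (k + 1) r hr, G_eq L M k _ (by omega)]
          have e5 : k * (L + M) + (M + r - L) + L = k * (L + M) + (M + r) := by omega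
          rw [e5, hj]
          omega
      · rintro v ⟨a, ⟨a1, a2, a3, a4⟩, hmax, rfl⟩
        have e : (k + 1) * (L + M) + r - a = k * (L + M) + (L + M + r - a) := by omega
        have hge := fII_ge L M ((k + 1) * (L + M) + r - a) L ⟨hL, le_rfl, hLM, by omega⟩
        rw [ih _ (by omega)] at hge
        have e6 : (k + 1) * (L + M) + r - a - L = k * (L + M) + (M + r - a) := by omega
        rw [e6] at hge
        unfold F at hge
        rw [G_eq L M k _ (by omega)] at hge
        have e7 : k * (L + M) + (M + r - a) + L = k * (L + M) + (L + M + r - a) := by omega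
        rw [e7] at hge
        rw [hII, ih _ (by omega), e] at hmax
        unfold F at hmax
        rw [G_eq L M k _ (by omega), G_eq L M k _ (by omega)] at hmax
        have hH : L * j ≤ H L (k * (L + M) + (L + M + r - a)) := by
          apply H_ge L _ j hL
          by_contra hc
          have h1 := H_le L (k * (L + M) + (L + M + r - a) + L) j hL (by omega)
          have h2 : L * j < L * (k + 1) := by
            have : L * (k + 1) = k * L + L := by ring
            omega
          have h3 : j ≤ k := Nat.le_of_lt_succ (Nat.lt_of_mul_lt_mul_left h2)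
          have h4 : L * j ≤ L * k := Nat.mul_le_mul_left _ h3
          have h5 : L * k = k * L := by ring
          omega
        unfold F
        rw [hHn, G_eq L M (k + 1) r hr]
        omega

lemma F_shift (L M : ℕ) (hL : 1 ≤ L) (hLM : L ≤ M) (n : ℕ) (hn : 3 * L * (L + M) ≤ n) :
    F L M (n + (L + M)) = F L M n + M := by
  obtain ⟨q, r, hr, rfl⟩ := decomp (L + M) n (by omega)
  have hq : 3 * L ≤ q := by
    by_contra h
    have : (q + 1) * (L + M) ≤ 3 * L * (L + M) := Nat.mul_le_mul_right _ (by omega)
    have e : (q + 1) * (L + M) = q * (L + M) + (L + M) := by ring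
    omega
  have e : q * (L + M) + r + (L + M) = (q + 1) * (L + M) + r := by ring
  have hqp : q * (L + M) = q * L + q * M := by ring
  have e' : (q + 1) * (L + M) = q * (L + M) + (L + M) := by ring
  have e3 : (q + 1) * L = q * L + L := by ring
  have e4 : (q + 1) * M = q * M + M := by ring
  rw [e]
  unfold F
  rw [G_eq L M q r hr, G_eq L M (q + 1) r hr]
  rcases Nat.eq_or_lt_of_le hLM with rfl | hlt
  · have h1 : H L ((q + 1) * (L + L) + r + L) = H L (q * (L + L) + r + L) + L := by
      rw [← H_add L _ hL]; congr 1; omega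
    have h3 : 1 * L ≤ q * L := Nat.mul_le_mul_right _ (by omega)
    omega
  · obtain ⟨i, hi, hi1, _⟩ := H_spec L (q * (L + M) + r + L) hL
    obtain ⟨j, hj, hj1, _⟩ := H_spec L ((q + 1) * (L + M) + r + L) hL
    have h1 : q * (L + 1) ≤ q * M := Nat.mul_le_mul_left _ hlt
    have h2 : q * (L + 1) = q * L + q := by ring
    rw [hi, hj]
    omega

theorem main (L M : ℕ) (hL : 1 ≤ L) (hLM : L ≤ M) (n : ℕ) (hn : 3 * L * (L + M) + M ≤ n) :
    fI L M (n + L + M) = fI L M n + M ∧ fII L M (n + L + M) = fII L M n + M := by
  have key : ∀ m, 3 * L * (L + M) ≤ m → fI L M (m + (L + M)) = fI L M m + M := by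
    intro m hm
    rw [fI_eq L M hL hLM, fI_eq L M hL hLM, F_shift L M hL hLM m hm]
  constructor
  · rw [Nat.add_assoc]; exact key n (by omega)
  · apply le_antisymm
    · obtain ⟨a, ⟨a1, a2, a3, a4⟩, e⟩ := fII_mem L M (n + L + M) hL hLM (by omega)
      have e2 : n + L + M - a = (n - a) + (L + M) := by omega
      rw [e, e2, key _ (by omega)]
      have := fII_ge L M n a ⟨a1, a2, a3, by omega⟩
      omega
    · obtain ⟨a, ⟨a1, a2, a3, a4⟩, e⟩ := fII_mem L M n hL hLM (by omega)
      have e2 : n + L + M - a = (n - a) + (L + M) := by omega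
      have := fII_ge L M (n + L + M) a ⟨a1, a2, a3, by omega⟩
      rw [e2, key _ (by omega)] at this
      omega

end Pool.Agent.Lib.MP_88cfb8_co
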